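import Pool.Agent.Y604.SX.AS2

set_option autoImplicit false

/-! Project SX, job AS: the fourth moment with a fixed twist. -/

namespace Pool.Agent.Y604.SX

open Finset Filter Topology MeasureTheory Complex
open Pool.Agent.Y969.SM
open Pool.Agent.H306R2.SM (om cl Yf)
open Pool.Agent.H262R4.TM (Rng Ck)
open Pool.Agent.H448R2.GC (cs cu)
open Pool.Agent.W184.NZ (mh w1 wl Mn wz mh_cont mh_norm_le mh_eq)
open Pool.Agent.TH806 (DP BF om_poly_int DP_cont DP_norm)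
open Pool.Agent.TH757.N4_ING (fc fc_nonneg fc_le_one fc_one fc_zero cs_DP DP_sub)

noncomputable section

/-- comparison of two means -/
lemma diffE {κ : ℕ} {T : ℝ} {φ ψ : ℝ → ℝ} (hδ : 0 < (κ:ℝ) / T)
    (h1 : In κ T fun t => ((φ t : ℝ) : ℂ)) (h2 : In κ T fun t => ((ψ t : ℝ) : ℂ))
    (h3 : IntegrableOn (fun t => om κ (κ / T) t * |φ t - ψ t|) (Set.Ioi 0)) {x : ℕ × ℕ}
    (hx1 : x.1 ≠ 0) (hx2 : x.2 ≠ 0) :
    ‖Ei κ T (fun t => ((φ t : ℝ) : ℂ) * mh t x) - Ei κ T (fun t => ((ψ t : ℝ) : ℂ) * mh t x)‖ ≤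
      ∫ t in Set.Ioi (0:ℝ), om κ (κ / T) t * |φ t - ψ t| := by
  rw [← Ei_sub (In_mh h1 hx1 hx2) (In_mh h2 hx1 hx2)]
  unfold Ei
  refine norm_integral_le_of_norm_le h3 ?_
  refine (ae_restrict_iff' measurableSet_Ioi).mpr (Eventually.of_forall fun t ht => ?_)
  have ho := Pool.Agent.TH806.om_nn κ hδ (le_of_lt ht)
  show ‖((om κ (κ / T) t : ℝ) : ℂ) * (((φ t : ℝ) : ℂ) * mh t x - ((ψ t : ℝ) : ℂ) * mh t x)‖ ≤ _
  rw [← sub_mul, ← ofReal_sub, norm_mul, norm_mul, Complex.norm_real, Complex.norm_real,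
    Real.norm_eq_abs, Real.norm_eq_abs, abs_of_nonneg ho]
  have := mh_norm_le (t := t) hx1 hx2
  calc _ ≤ om κ (κ / T) t * (|φ t - ψ t| * 1) := by gcongr
    _ = _ := by rw [mul_one]

/-- the twisted difference -/
def Dd (h l κ : ℕ) (T : ℝ) (φ : ℝ → ℂ) : ℂ :=
  Ei κ T (fun t => φ t * mh t (h, l)) - (w2 (h, l) : ℂ) * Ei κ T (fun t => φ t * mh t (1, 1))

lemma Ei_lin {κ : ℕ} {T : ℝ} {A B P R : ℝ → ℂ} (hA : In κ T A) (hB : In κ T B) (hP : In κ T P)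
    (hR : In κ T R) {x : ℕ × ℕ} (h1 : x.1 ≠ 0) (h2 : x.2 ≠ 0) :
    Ei κ T (fun t => (A t + B t + 2 * P t - R t) * mh t x) =
      Ei κ T (fun t => A t * mh t x) + Ei κ T (fun t => B t * mh t x) +
        2 * Ei κ T (fun t => P t * mh t x) - Ei κ T (fun t => R t * mh t x) := by
  have e1 : (fun t => (A t + B t + 2 * P t - R t) * mh t x) =
      fun t => (A t * mh t x + B t * mh t x + 2 * (P t * mh t x)) - R t * mh t x := by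
    funext t
    ring
  rw [e1, Ei_sub (In_add (In_add (In_mh hA h1 h2) (In_mh hB h1 h2)) (In_cmul 2 (In_mh hP h1 h2)))
    (In_mh hR h1 h2), Ei_add (In_add (In_mh hA h1 h2) (In_mh hB h1 h2))
    (In_cmul 2 (In_mh hP h1 h2)), Ei_add (In_mh hA h1 h2) (In_mh hB h1 h2), Ei_cmul]

lemma Dd_lin {h l κ : ℕ} {T : ℝ} {A B P R : ℝ → ℂ} (hA : In κ T A) (hB : In κ T B)
    (hP : In κ T P) (hR : In κ T R) (hh : h ≠ 0) (hl : l ≠ 0) :
    Dd h l κ T (fun t => A t + B t + 2 * P t - R t) =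
      Dd h l κ T A + Dd h l κ T B + 2 * Dd h l κ T P - Dd h l κ T R := by
  unfold Dd
  rw [Ei_lin hA hB hP hR (x := (h, l)) hh hl,
    Ei_lin hA hB hP hR (x := (1, 1)) one_ne_zero one_ne_zero]
  ring

lemma Dd_conj {h l κ : ℕ} {T : ℝ} (Z : ℝ → ℂ) (hh : h ≠ 0) (hl : l ≠ 0) :
    Dd h l κ T (fun t => (starRingEnd ℂ) (Z t)) = (starRingEnd ℂ) (Dd l h κ T Z) := by
  unfold Dd
  rw [map_sub, map_mul, Complex.conj_ofReal, ← Ei_conj, ← Ei_conj, w2_symm h l]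
  congr 2
  · funext t
    rw [map_mul, mh_conj t hl hh]
  · congr 1
    funext t
    rw [map_mul, mh_conj t one_ne_zero one_ne_zero]

/-- the first moments -/
lemma Dd_first {κ : ℕ} {T : ℝ} (hδ : 0 < (κ:ℝ) / T) (hT : 1 ≤ T)
    (hFM : ∀ h l : ℕ, 1 ≤ h → 1 ≤ l → (h : ℝ) ≤ T ^ (199 / 200 : ℝ) → (l : ℝ) ≤ T →
      ‖(∫ t in Set.Ioi (0 : ℝ), ((om κ (κ / T) t : ℝ) : ℂ) *
        ((starRingEnd ℂ) (riemannZeta (cl t)) ^ 2 * mh t (h, l))) -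
      (if l ∣ h then (((h / l).divisors.card : ℝ) / (h : ℝ) : ℂ) else 0)‖ ≤ T ^ (-1 : ℝ))
    {f : ℕ → ℝ} (hf : ∀ n, |f n| ≤ 1) {M h l : ℕ} (hM : (M : ℝ) ≤ T ^ (99 / 200 : ℝ))
    (hh : 1 ≤ h) (hl : 1 ≤ l) (hhT : (h : ℝ) ≤ T ^ (1 / 200 : ℝ)) (hlT : (l : ℝ) ≤ T) {X : ℝ}
    (hA : |SA h l M f - w2 (h, l) * SA 1 1 M f| ≤ X) :
    ‖Dd h l κ T (fun t => (starRingEnd ℂ) (riemannZeta (cl t)) ^ 2 *
        DP (fun n => ((f n : ℝ) : ℂ)) M t ^ 2)‖ ≤ X + 1 + w2 (h, l) := by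
  have h1 := first hδ hT hFM hf hM hh hl hhT hlT
  have h2 := first hδ hT hFM hf hM le_rfl le_rfl
    (by rw [Nat.cast_one]; exact Real.one_le_rpow hT (by norm_num))
    (by rw [Nat.cast_one]; exact hT)
  have hw := w2_nonneg (h, l)
  unfold Dd
  set P := Ei κ T (fun t => (starRingEnd ℂ) (riemannZeta (cl t)) ^ 2 *
    DP (fun n => ((f n : ℝ) : ℂ)) M t ^ 2 * mh t (h, l))
  set P1 := Ei κ T (fun t => (starRingEnd ℂ) (riemannZeta (cl t)) ^ 2 *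
    DP (fun n => ((f n : ℝ) : ℂ)) M t ^ 2 * mh t (1, 1))
  have e1 : P - (w2 (h, l) : ℂ) * P1 = (P - ((SA h l M f : ℝ) : ℂ)) +
      (((SA h l M f - w2 (h, l) * SA 1 1 M f : ℝ)) : ℂ) -
      (w2 (h, l) : ℂ) * (P1 - ((SA 1 1 M f : ℝ) : ℂ)) := by
    push_cast
    ring
  rw [e1]
  refine (norm_sub_le _ _).trans ?_
  have h4 : ‖(w2 (h, l) : ℂ) * (P1 - ((SA 1 1 M f : ℝ) : ℂ))‖ ≤ w2 (h, l) * 1 := by
    rw [norm_mul, Complex.norm_real, Real.norm_eq_abs, abs_of_nonneg hw]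
    exact mul_le_mul_of_nonneg_left h2 hw
  have h5 : ‖(((SA h l M f - w2 (h, l) * SA 1 1 M f : ℝ)) : ℂ)‖ ≤ X := by
    rw [Complex.norm_real, Real.norm_eq_abs]
    exact hA
  have h6 := norm_add_le (P - ((SA h l M f : ℝ) : ℂ))
    (((SA h l M f - w2 (h, l) * SA 1 1 M f : ℝ)) : ℂ)
  linarith

theorem core (h1 : S_TWC) (h2 : Pool.Agent.TH806.N4.P_FM) (h4 : S_A1) (h5 : S_A2) {k : ℕ}
    (hFA : S_FA k) {h l : ℕ} (hh : 1 ≤ h) (hl : 1 ≤ l) (hcop : Nat.Coprime h l) :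
    ∃ C : ℝ, 0 < C ∧ ∀ᶠ T : ℝ in atTop, ∀ κ : ℕ, Rng T κ →
      ‖Dd h l κ T (fun t => ((Pool.Agent.Y969.SM.Xz t ^ 4 : ℝ) : ℂ))‖ ≤ C * Real.log T ^ 3 := by
  obtain ⟨η, hη, hTW⟩ := h1 (103 / 200) (by norm_num)
  have hFM := h2 (199 / 200) (by norm_num)
  have hk : (0:ℝ) < (k:ℝ) + 1 := by positivity
  obtain ⟨C1, hC1, hA1⟩ := h4 h l hh hl hcop (400 * ((k:ℝ) + 1)) (by positivity)
  obtain ⟨C1', hC1', hA1'⟩ := h4 l h hl hh hcop.symm (400 * ((k:ℝ) + 1)) (by positivity)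
  obtain ⟨C2, hC2, hA2⟩ := h5 h l hh hl hcop (2 * (400 * ((k:ℝ) + 1))) (by positivity)
  obtain ⟨CF, hCF, hFA⟩ := hFA
  have hw := w2_nonneg (h, l)
  refine ⟨(C1 + 1 + w2 (h, l)) + (C1' + 1 + w2 (h, l)) + 3 * (C2 * 8 + 4 + 4 * w2 (h, l)) +
    CF + w2 (h, l) * CF, by positivity, ?_⟩
  have hpow : ∀ᶠ T : ℝ in atTop, ((max h l : ℕ) : ℝ) ≤ T ^ (1 / 200 : ℝ) :=
    (tendsto_rpow_atTop (by norm_num : (0:ℝ) < 1 / 200)).eventually_ge_atTop _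
  filter_upwards [hTW, hFM, hFA, Real.tendsto_log_atTop.eventually_ge_atTop 400,
    eventually_ge_atTop (1:ℝ), hpow] with T hTW hFM hFA hL hT1 hpow
  intro κ hκ
  have hT0 : 0 < T := by linarith
  obtain ⟨L, hLd⟩ : ∃ L : ℝ, L = Real.log T := ⟨_, rfl⟩
  rw [← hLd] at hL ⊢
  have hL0 : 0 < L := by linarith
  have hκ1 : 1 ≤ κ := by
    have h6 := hκ.1
    rw [← hLd] at h6
    have h7 : (0:ℝ) < κ := lt_of_lt_of_le (by positivity) h6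
    exact_mod_cast h7
  have hκ0 : (0:ℝ) < κ := by exact_mod_cast hκ1
  have hδ : 0 < (κ:ℝ) / T := by positivity
  obtain ⟨lp, hlpd⟩ : ∃ lp : ℝ, lp = Real.log (2 * Real.pi) := ⟨_, rfl⟩
  obtain ⟨hlp0, hlp2⟩ := Pool.Agent.TH757.N4_ING.log2pi
  rw [← hlpd] at hlp0 hlp2
  obtain ⟨hLL1, hLL2⟩ := LL_bd hκ1 hT0
  rw [← hLd] at hLL1 hLL2
  obtain ⟨L', hL'⟩ : ∃ L' : ℝ, L' = Real.log (Yf κ T) + Ck κ := ⟨_, rfl⟩
  rw [← hL'] at hLL1 hLL2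
  have hL'0 : 0 < L' := by linarith
  have hL'1 : 1 ≤ L' := by linarith
  have hL'2 : L' ≤ 2 * L := by linarith
  -- the parameters
  obtain ⟨c, hc⟩ : ∃ c : ℝ, c = 1 / 200 * L / ((k:ℝ) + 1) := ⟨_, rfl⟩
  have hc0 : 0 < c := by rw [hc]; positivity
  obtain ⟨D1, hD1⟩ : ∃ D1 : ℝ, D1 = (1 / 2 - 2 * (1 / 200)) * L := ⟨_, rfl⟩
  obtain ⟨D2, hD2⟩ : ∃ D2 : ℝ, D2 = (1 / 2 + 1 / 200) * L - lp := ⟨_, rfl⟩
  have hD2' : Real.log (T / (2 * Real.pi)) - (1 / 2 - 2 * (1 / 200)) * Real.log T -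
      1 / 200 * Real.log T = D2 := by
    rw [Real.log_div hT0.ne' (by positivity), ← hLd, ← hlpd, hD2]
    ring
  have hkc : ((k + 1 : ℕ) : ℝ) * c = L / 200 := by
    rw [hc]; push_cast; field_simp
  have hD12 : D1 ≤ D2 := by
    rw [hD1, hD2]; linarith
  obtain ⟨M1, hM1⟩ : ∃ M1 : ℕ, M1 = ⌊Real.exp (D1 + ((k + 1 : ℕ) : ℝ) * c)⌋₊ := ⟨_, rfl⟩
  obtain ⟨M2, hM2⟩ : ∃ M2 : ℕ, M2 = ⌊Real.exp (D2 + ((k + 1 : ℕ) : ℝ) * c)⌋₊ := ⟨_, rfl⟩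
  have hM12 : M1 ≤ M2 := by
    rw [hM1, hM2]
    exact Nat.floor_le_floor (Real.exp_le_exp.2 (by linarith))
  have ha1 : ∀ t : ℝ, a1 k T t = DP (fun n => ((fc (k + 1) c D1 n : ℝ) : ℂ)) M1 t := fun t => by
    rw [← cs_DP hc0 hM1.ge t]
    unfold a1
    rw [← hLd, ← hc, ← hD1]
  have ha1' : ∀ t : ℝ, a1 k T t = DP (fun n => ((fc (k + 1) c D1 n : ℝ) : ℂ)) M2 t := fun t => by
    rw [← cs_DP hc0 (hM1.ge.trans hM12) t]
    unfold a1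
    rw [← hLd, ← hc, ← hD1]
  have ha2 : ∀ t : ℝ, a2 k T t = DP (fun n => ((fc (k + 1) c D2 n : ℝ) : ℂ)) M2 t := fun t => by
    rw [← cs_DP hc0 hM2.ge t]
    unfold a2
    rw [hD2', ← hLd, ← hc]
  have ha3 : ∀ t : ℝ, a2 k T t - a1 k T t =
      DP (fun n => (((fc (k + 1) c D2 n - fc (k + 1) c D1 n : ℝ)) : ℂ)) M2 t := fun t => by
    rw [ha2, ha1', DP_sub]
  -- the lengths
  have hM1T : (M1 : ℝ) ≤ T ^ (99 / 200 : ℝ) := by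
    rw [hM1]
    refine (Nat.floor_le (Real.exp_pos _).le).trans ?_
    rw [Real.rpow_def_of_pos hT0, ← hLd]
    refine Real.exp_le_exp.2 ?_
    rw [hkc, hD1]; linarith
  have hM2T : (M2 : ℝ) ≤ T ^ (51 / 100 : ℝ) := by
    rw [hM2]
    refine (Nat.floor_le (Real.exp_pos _).le).trans ?_
    rw [Real.rpow_def_of_pos hT0, ← hLd]
    refine Real.exp_le_exp.2 ?_
    rw [hkc, hD2]; linarith
  have hM11 : 1 ≤ M1 := by
    rw [hM1, Nat.one_le_floor_iff]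
    refine Real.one_le_exp ?_
    rw [hkc, hD1]; linarith
  have hM21 : 1 ≤ M2 := hM11.trans hM12
  have hlogM1 : Real.log M1 ≤ L := by
    have h6 : (0:ℝ) < M1 := by exact_mod_cast hM11
    have h7 := Real.log_le_log h6 hM1T
    rw [Real.log_rpow hT0, ← hLd] at h7
    linarith
  have hlogM2 : Real.log M2 ≤ L' := by
    have h6 : (0:ℝ) < M2 := by exact_mod_cast hM21
    have h7 := Real.log_le_log h6 hM2T
    rw [Real.log_rpow hT0, ← hLd] at h7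
    linarith
  have hMB : ((M2 * (max h l) : ℕ) : ℝ) ≤ T ^ (103 / 200 : ℝ) := by
    rw [Nat.cast_mul]
    calc _ ≤ T ^ (51 / 100 : ℝ) * T ^ (1 / 200 : ℝ) :=
          mul_le_mul hM2T hpow (Nat.cast_nonneg _) (by positivity)
      _ = _ := by
          rw [← Real.rpow_add hT0]
          norm_num
  have hB1 : 1 ≤ max h l := hh.trans (le_max_left _ _)
  -- the weights
  have hcinv : 1 / c = 200 * ((k:ℝ) + 1) / L := by
    rw [hc]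
    field_simp
  have hW1 : Wt (400 * ((k:ℝ) + 1)) L M1 (fc (k + 1) c D1) := by
    refine Wt_fc hc0 ?_ hM1.ge
    rw [hcinv]
    gcongr
    norm_num
  have hcinv' : 1 / c ≤ 400 * ((k:ℝ) + 1) / L' := by
    rw [hcinv, div_le_div_iff₀ hL0 hL'0]
    have := mul_le_mul_of_nonneg_left hL'2 (by positivity : (0:ℝ) ≤ 200 * ((k:ℝ) + 1))
    linarith
  have hW2 : Wt (400 * ((k:ℝ) + 1)) L' M2 (fc (k + 1) c D2) := Wt_fc hc0 hcinv' hM2.ge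
  have hW1' : Wt (400 * ((k:ℝ) + 1)) L' M2 (fc (k + 1) c D1) :=
    Wt_fc hc0 hcinv' (hM1.ge.trans hM12)
  have hW3 : Wt (2 * (400 * ((k:ℝ) + 1))) L' M2
      (fun n => fc (k + 1) c D2 n - fc (k + 1) c D1 n) :=
    Wt_sub hW2 hW1' (fun n => fc_nonneg hc0 n) (fun n => fc_nonneg hc0 n)
  have hW2' : Wt (2 * (400 * ((k:ℝ) + 1))) L' M2 (fc (k + 1) c D2) :=
    Wt_mono hL'0 (by linarith) hW2
  -- the four pieces
  have hhT : (h : ℝ) ≤ T ^ (1 / 200 : ℝ) :=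
    le_trans (by exact_mod_cast le_max_left h l) hpow
  have hlT : (l : ℝ) ≤ T ^ (1 / 200 : ℝ) :=
    le_trans (by exact_mod_cast le_max_right h l) hpow
  have hTT : T ^ (1 / 200 : ℝ) ≤ T := by
    calc T ^ (1 / 200 : ℝ) ≤ T ^ (1:ℝ) := Real.rpow_le_rpow_of_exponent_le hT1 (by norm_num)
      _ = T := Real.rpow_one T
  have hS1 : |SA h l M1 (fc (k + 1) c D1) - w2 (h, l) * SA 1 1 M1 (fc (k + 1) c D1)| ≤
      C1 * L ^ 3 := by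
    rw [SA_one]
    exact hA1 M1 L _ _ hM11 (by linarith) hlogM1 hW1 hW1
  have hS1' : |SA l h M1 (fc (k + 1) c D1) - w2 (l, h) * SA 1 1 M1 (fc (k + 1) c D1)| ≤
      C1' * L ^ 3 := by
    rw [SA_one]
    exact hA1' M1 L _ _ hM11 (by linarith) hlogM1 hW1 hW1
  have b1 := Dd_first hδ hT1 (hFM κ hκ) hW1.1 hM1T hh hl hhT (hlT.trans hTT) hS1
  have b1' := Dd_first hδ hT1 (hFM κ hκ) hW1.1 hM1T hl hh hlT (hhT.trans hTT) hS1'
  have hh0 : h ≠ 0 := by omega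
  have hl0 : l ≠ 0 := by omega
  have b2 := second hT1 hη (hTW κ hκ) hA2 hL' hL'1 hM21 hlogM2 hW2' hh0 hl0 hMB hB1
  have b3 := second hT1 hη (hTW κ hκ) hA2 hL' hL'1 hM21 hlogM2 hW3 hh0 hl0 hMB hB1
  -- names
  set Z : ℝ → ℂ := fun t => (starRingEnd ℂ) (riemannZeta (cl t)) ^ 2 *
        DP (fun n => ((fc (k + 1) c D1 n : ℝ) : ℂ)) M1 t ^ 2 with hZ
  set P2 : ℝ → ℂ := fun t => ((‖riemannZeta (cl t)‖ ^ 2 *
    ‖DP (fun n => ((fc (k + 1) c D2 n : ℝ) : ℂ)) M2 t‖ ^ 2 : ℝ) : ℂ) with hP2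
  set P3 : ℝ → ℂ := fun t => ((‖riemannZeta (cl t)‖ ^ 2 *
    ‖DP (fun n => (((fc (k + 1) c D2 n - fc (k + 1) c D1 n : ℝ)) : ℂ)) M2 t‖ ^ 2 : ℝ) : ℂ) with hP3
  have b2' : ‖Dd h l κ T P2‖ ≤ C2 * L' ^ 3 + 4 + 4 * w2 (h, l) := b2
  have b3' : ‖Dd h l κ T P3‖ ≤ C2 * L' ^ 3 + 4 + 4 * w2 (h, l) := b3
  -- integrability
  have hzc := Pool.Agent.H262R4.TM.TTW.zeta_cont
  have hzc2 : Continuous fun t => (starRingEnd ℂ) (riemannZeta (cl t)) :=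
    Complex.continuous_conj.comp hzc
  have hzb : ∀ t : ℝ, 0 ≤ t → ‖riemannZeta (cl t)‖ ^ 2 ≤ 24 ^ 2 * (1 + t) ^ 4 := by
    intro t ht
    calc _ ≤ (24 * (1 + t) ^ 2) ^ 2 :=
          pow_le_pow_left₀ (norm_nonneg _) (Pool.Agent.H262R4.TM.TTW.zeta_cl_bound t ht) 2
      _ = _ := by ring
  have hDb : ∀ (f : ℕ → ℝ) (M : ℕ) (t : ℝ), (∀ n, |f n| ≤ 1) →
      ‖DP (fun n => ((f n : ℝ) : ℂ)) M t‖ ^ 2 ≤ (M:ℝ) ^ 2 := by
    intro f M t hf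
    refine pow_le_pow_left₀ (norm_nonneg _) (DP_norm (fun n _ => ?_) M t) 2
    rw [Complex.norm_real, Real.norm_eq_abs]
    exact hf n
  have iZ : In κ T Z := by
    refine In_of_bound hδ ((hzc2.pow 2).mul ((DP_cont _ _).pow 2)) (C := 24 ^ 2 * (M1:ℝ) ^ 2) 4
      fun t ht => ?_
    rw [hZ]
    simp only
    rw [norm_mul, norm_pow, norm_pow, RCLike.norm_conj]
    calc _ ≤ (24 ^ 2 * (1 + t) ^ 4) * (M1:ℝ) ^ 2 :=
          mul_le_mul (hzb t ht) (hDb _ _ _ hW1.1) (by positivity) (by positivity)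
      _ = _ := by ring
  have iZc : In κ T (fun t => (starRingEnd ℂ) (Z t)) := by
    refine In_of_bound hδ (Complex.continuous_conj.comp ((hzc2.pow 2).mul ((DP_cont _ _).pow 2)))
      (C := 24 ^ 2 * (M1:ℝ) ^ 2) 4 fun t ht => ?_
    rw [RCLike.norm_conj, hZ]
    simp only
    rw [norm_mul, norm_pow, norm_pow, RCLike.norm_conj]
    calc _ ≤ (24 ^ 2 * (1 + t) ^ 4) * (M1:ℝ) ^ 2 :=
          mul_le_mul (hzb t ht) (hDb _ _ _ hW1.1) (by positivity) (by positivity)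
      _ = _ := by ring
  have iP : ∀ f : ℕ → ℝ, (∀ n, |f n| ≤ 1) → In κ T (fun t => ((‖riemannZeta (cl t)‖ ^ 2 *
      ‖DP (fun n => ((f n : ℝ) : ℂ)) M2 t‖ ^ 2 : ℝ) : ℂ)) := by
    intro f hf
    refine In_of_bound hδ (Complex.continuous_ofReal.comp ((hzc.norm.pow 2).mul
      ((DP_cont _ _).norm.pow 2))) (C := 24 ^ 2 * (M2:ℝ) ^ 2) 4 fun t ht => ?_
    rw [Complex.norm_real, Real.norm_eq_abs, abs_of_nonneg (by positivity)]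
    calc _ ≤ (24 ^ 2 * (1 + t) ^ 4) * (M2:ℝ) ^ 2 :=
          mul_le_mul (hzb t ht) (hDb _ _ _ hf) (by positivity) (by positivity)
      _ = _ := by ring
  have iP2 : In κ T P2 := iP _ hW2.1
  have iP3 : In κ T P3 := iP _ hW3.1
  -- the model
  have hF0 : (fun t => ((F0 k T t : ℝ) : ℂ)) =
      fun t => Z t + (starRingEnd ℂ) (Z t) + 2 * P2 t - P3 t := by
    funext t
    rw [Complex.add_conj, hZ, hP2, hP3]
    simp only
    unfold F0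
    rw [ha3, ha2, ha1]
    push_cast
    ring
  have iF : In κ T (fun t => ((F0 k T t : ℝ) : ℂ)) := by
    rw [hF0]
    exact In_sub (In_add (In_add iZ iZc) (In_cmul 2 iP2)) iP3
  have bF : ‖Dd h l κ T (fun t => ((F0 k T t : ℝ) : ℂ))‖ ≤
      (C1 * L ^ 3 + 1 + w2 (h, l)) + (C1' * L ^ 3 + 1 + w2 (h, l)) +
        3 * (C2 * L' ^ 3 + 4 + 4 * w2 (h, l)) := by
    rw [hF0, Dd_lin iZ iZc iP2 iP3 hh0 hl0, Dd_conj Z hh0 hl0]
    have n1 := norm_sub_le (Dd h l κ T Z + (starRingEnd ℂ) (Dd l h κ T Z) + 2 * Dd h l κ T P2)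
      (Dd h l κ T P3)
    have n2 := norm_add_le (Dd h l κ T Z + (starRingEnd ℂ) (Dd l h κ T Z)) (2 * Dd h l κ T P2)
    have n3 := norm_add_le (Dd h l κ T Z) ((starRingEnd ℂ) (Dd l h κ T Z))
    rw [RCLike.norm_conj] at n3
    rw [norm_mul, Complex.norm_ofNat] at n2
    rw [w2_symm l h] at b1'
    linarith
  -- the fourth power of zeta
  obtain ⟨i1, -, i3, f1, -, -⟩ := hFA κ hκ
  rw [← hLd] at f1
  have iX : In κ T (fun t => ((Pool.Agent.Y969.SM.Xz t ^ 4 : ℝ) : ℂ)) := by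
    refine (Integrable.ofReal (𝕜 := ℂ) i3).congr (Eventually.of_forall fun t => ?_)
    simp only
    push_cast
    rfl
  have d1 := diffE (x := (h, l)) hδ iX iF i1 hh0 hl0
  have d2 := diffE (x := (1, 1)) hδ iX iF i1 one_ne_zero one_ne_zero
  have e1 : Dd h l κ T (fun t => ((Pool.Agent.Y969.SM.Xz t ^ 4 : ℝ) : ℂ)) =
      Dd h l κ T (fun t => ((F0 k T t : ℝ) : ℂ)) +
      (Ei κ T (fun t => ((Pool.Agent.Y969.SM.Xz t ^ 4 : ℝ) : ℂ) * mh t (h, l)) -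
        Ei κ T (fun t => ((F0 k T t : ℝ) : ℂ) * mh t (h, l))) -
      (w2 (h, l) : ℂ) * (Ei κ T (fun t => ((Pool.Agent.Y969.SM.Xz t ^ 4 : ℝ) : ℂ) * mh t (1, 1)) -
        Ei κ T (fun t => ((F0 k T t : ℝ) : ℂ) * mh t (1, 1))) := by
    unfold Dd
    ring
  rw [e1]
  refine (norm_sub_le _ _).trans ?_
  have n4 := norm_add_le (Dd h l κ T (fun t => ((F0 k T t : ℝ) : ℂ)))
    (Ei κ T (fun t => ((Pool.Agent.Y969.SM.Xz t ^ 4 : ℝ) : ℂ) * mh t (h, l)) -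
        Ei κ T (fun t => ((F0 k T t : ℝ) : ℂ) * mh t (h, l)))
  have n5 : ‖(w2 (h, l) : ℂ) * (Ei κ T (fun t => ((Pool.Agent.Y969.SM.Xz t ^ 4 : ℝ) : ℂ) *
      mh t (1, 1)) - Ei κ T (fun t => ((F0 k T t : ℝ) : ℂ) * mh t (1, 1)))‖ ≤
      w2 (h, l) * (CF * L ^ 3) := by
    rw [norm_mul, Complex.norm_real, Real.norm_eq_abs, abs_of_nonneg hw]
    exact mul_le_mul_of_nonneg_left (d2.trans f1) hw
  have hL3 : 1 ≤ L ^ 3 := one_le_pow₀ (by linarith)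
  have hL'3 : L' ^ 3 ≤ 8 * L ^ 3 := by
    calc L' ^ 3 ≤ (2 * L) ^ 3 := pow_le_pow_left₀ hL'0.le hL'2 3
      _ = 8 * L ^ 3 := by ring
  have p1 : C2 * L' ^ 3 ≤ C2 * (8 * L ^ 3) := mul_le_mul_of_nonneg_left hL'3 hC2.le
  have p2 : w2 (h, l) ≤ w2 (h, l) * L ^ 3 := by
    have := mul_le_mul_of_nonneg_left hL3 hw
    linarith
  have d1' := d1.trans f1
  have e2 : ((C1 + 1 + w2 (h, l)) + (C1' + 1 + w2 (h, l)) + 3 * (C2 * 8 + 4 + 4 * w2 (h, l)) +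
      CF + w2 (h, l) * CF) * L ^ 3 = C1 * L ^ 3 + C1' * L ^ 3 + 3 * (C2 * (8 * L ^ 3)) +
      14 * L ^ 3 + 14 * (w2 (h, l) * L ^ 3) + CF * L ^ 3 + w2 (h, l) * (CF * L ^ 3) := by ring
  rw [e2]
  linarith

/-- **AS**: the fourth moment with a fixed twist. -/
theorem t_AS (h1 : S_TWC) (h2 : Pool.Agent.TH806.N4.P_FM) (h3 : Pool.Agent.TH806.N4.P_ING)
    (h4 : S_A1) (h5 : S_A2) (h6 : ∃ k : ℕ, 2 ≤ k ∧ S_FA k) : S_AS := by
  obtain ⟨k, -, hFA⟩ := h6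
  rintro ⟨x, y⟩ hx hy ε hε
  simp only at hx hy
  -- the coprime parts
  obtain ⟨g, hgd⟩ : ∃ g : ℕ, g = Nat.gcd x y := ⟨_, rfl⟩
  have hg : 0 < g := by rw [hgd]; exact Nat.gcd_pos_of_pos_left _ (Nat.pos_of_ne_zero hx)
  obtain ⟨h, hxh⟩ : g ∣ x := hgd ▸ Nat.gcd_dvd_left x y
  obtain ⟨l, hyl⟩ : g ∣ y := hgd ▸ Nat.gcd_dvd_right x y
  have hh : 1 ≤ h := by
    rcases Nat.eq_zero_or_pos h with h0 | h0
    · exact absurd (by rw [hxh, h0, mul_zero]) hx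
    · exact h0
  have hl : 1 ≤ l := by
    rcases Nat.eq_zero_or_pos l with h0 | h0
    · exact absurd (by rw [hyl, h0, mul_zero]) hy
    · exact h0
  have hcop : Nat.Coprime h l := by
    have e1 : g * Nat.gcd h l = g * 1 := by
      rw [← Nat.gcd_mul_left, ← hxh, ← hyl, mul_one]
      exact hgd.symm
    exact Nat.eq_of_mul_eq_mul_left hg e1
  obtain ⟨C, hC, hcore⟩ := core h1 h2 h4 h5 hFA hh hl hcop
  have hw := w2_nonneg (h, l)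
  have hε' : 0 < ε / (2 * (w2 (h, l) + 1)) := by positivity
  filter_upwards [hcore, h3 _ hε', Real.tendsto_log_atTop.eventually_ge_atTop 1,
    Real.tendsto_log_atTop.eventually_ge_atTop (2 * C / ε)] with T hcore hING hL1 hLC
  intro κ hκ
  have hc := hcore κ hκ
  have hI := hING κ hκ
  obtain ⟨L, hLd⟩ : ∃ L : ℝ, L = Real.log T := ⟨_, rfl⟩
  rw [← hLd] at hc hI hL1 hLC ⊢
  have hg1 : (1:ℝ) ≤ g := by exact_mod_cast hg
  have hg0 : (0:ℝ) < g := by linarith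
  have hginv : (g:ℝ)⁻¹ ≤ 1 := inv_le_one_of_one_le₀ hg1
  -- the fourth moment
  have eW : Ei κ T (fun t => ((Pool.Agent.Y969.SM.Xz t ^ 4 : ℝ) : ℂ) * mh t (1, 1)) =
      ((Pool.Agent.TH806.N4.W 4 κ T : ℝ) : ℂ) := by
    unfold Ei Pool.Agent.TH806.N4.W
    rw [← integral_complex_ofReal]
    refine integral_congr_ae (Eventually.of_forall fun t => ?_)
    simp only
    rw [mh_one, mul_one]
    have e4 : (4:ℝ) = ((4:ℕ):ℝ) := by norm_num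
    rw [e4, Real.rpow_natCast]
    push_cast
    rfl
  have eX : (∫ t in Set.Ioi (0:ℝ), ((om κ (κ / T) t * Pool.Agent.Y969.SM.Xz t ^ 4 : ℝ) : ℂ) *
      mh t (x, y)) = (((g:ℝ)⁻¹ : ℝ) : ℂ) *
        Ei κ T (fun t => ((Pool.Agent.Y969.SM.Xz t ^ 4 : ℝ) : ℂ) * mh t (h, l)) := by
    rw [← Ei_cmul]
    unfold Ei
    refine integral_congr_ae (Eventually.of_forall fun t => ?_)
    simp only
    rw [hxh, hyl, mh_mul_gg t (by omega : g ≠ 0) h l]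
    push_cast
    ring
  have hw2 : w2 (x, y) = (g:ℝ)⁻¹ * w2 (h, l) := by
    rw [hxh, hyl]
    exact w2_mul_gg (by omega) (by omega) (by omega)
  rw [eX, hw2]
  unfold Dd at hc
  rw [eW] at hc
  set P := Ei κ T (fun t => ((Pool.Agent.Y969.SM.Xz t ^ 4 : ℝ) : ℂ) * mh t (h, l))
  set W0 := Pool.Agent.TH806.N4.W 4 κ T
  have e5 : (((g:ℝ)⁻¹ : ℝ) : ℂ) * P - (((g:ℝ)⁻¹ * w2 (h, l) / (2 * Real.pi ^ 2) * L ^ 4 : ℝ) : ℂ) =
      (((g:ℝ)⁻¹ : ℝ) : ℂ) * ((P - (w2 (h, l) : ℂ) * (W0 : ℂ)) +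
        ((w2 (h, l) * (W0 - 1 / (2 * Real.pi ^ 2) * L ^ 4) : ℝ) : ℂ)) := by
    push_cast
    ring
  rw [e5, norm_mul, Complex.norm_real, Real.norm_eq_abs, abs_of_pos (by positivity)]
  have q1 : ‖((w2 (h, l) * (W0 - 1 / (2 * Real.pi ^ 2) * L ^ 4) : ℝ) : ℂ)‖ ≤ ε / 2 * L ^ 4 := by
    rw [Complex.norm_real, Real.norm_eq_abs, abs_mul, abs_of_nonneg hw]
    calc _ ≤ w2 (h, l) * (ε / (2 * (w2 (h, l) + 1)) * L ^ 4) := mul_le_mul_of_nonneg_left hI hw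
      _ = (w2 (h, l) / (w2 (h, l) + 1)) * (ε / 2 * L ^ 4) := by field_simp
      _ ≤ 1 * (ε / 2 * L ^ 4) := by
          refine mul_le_mul_of_nonneg_right ?_ (by positivity)
          rw [div_le_one (by linarith)]
          linarith
      _ = _ := one_mul _
  have q2 : C * L ^ 3 ≤ ε / 2 * L ^ 4 := by
    rw [div_le_iff₀ hε] at hLC
    have : C ≤ ε / 2 * L := by linarith
    calc C * L ^ 3 ≤ (ε / 2 * L) * L ^ 3 := mul_le_mul_of_nonneg_right this (by positivity)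
      _ = _ := by ring
  have q3 := norm_add_le (P - (w2 (h, l) : ℂ) * (W0 : ℂ))
    ((w2 (h, l) * (W0 - 1 / (2 * Real.pi ^ 2) * L ^ 4) : ℝ) : ℂ)
  have q4 : ‖(P - (w2 (h, l) : ℂ) * (W0 : ℂ)) +
      ((w2 (h, l) * (W0 - 1 / (2 * Real.pi ^ 2) * L ^ 4) : ℝ) : ℂ)‖ ≤ ε * L ^ 4 := by linarith
  calc _ ≤ 1 * (ε * L ^ 4) := mul_le_mul hginv q4 (norm_nonneg _) zero_le_one
    _ = _ := one_mul _

end

end Pool.Agent.Y604.SX
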