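import Pool.Agent.Y969.SM.Stm2
import Pool.Agent.H448R2.GC.K1

set_option autoImplicit false

/-! Project SX, job AS, first part: the cutoffs are Lipschitz, reduction to coprime twists. -/

namespace Pool.Agent.Y604.SX

open Finset Filter Topology MeasureTheory Complex
open Pool.Agent.Y969.SM
open Pool.Agent.H306R2.SM (om cl Yf)
open Pool.Agent.H262R4.TM (Rng Ck)
open Pool.Agent.H448R2.GC (cs cu)
open Pool.Agent.W184.NZ (mh w1)

noncomputable section

/-- the primitive of the cutoff is monotone and Lipschitz -/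
lemma prim_bd {k : ℕ} {c : ℝ} (hc : 0 < c) {x y : ℝ} (hxy : x ≤ y) :
    0 ≤ (∫ u in (0:ℝ)..y, cu k c u) - (∫ u in (0:ℝ)..x, cu k c u) ∧
    (∫ u in (0:ℝ)..y, cu k c u) - (∫ u in (0:ℝ)..x, cu k c u) ≤ y - x := by
  have h1 : (∫ u in (0:ℝ)..y, cu k c u) - (∫ u in (0:ℝ)..x, cu k c u) = ∫ u in x..y, cu k c u :=
    intervalIntegral.integral_interval_sub_left
      (Pool.Agent.H448R2.GC.K1.cu_int c hc k _ _) (Pool.Agent.H448R2.GC.K1.cu_int c hc k _ _)
  rw [h1]
  constructor
  · exact intervalIntegral.integral_nonneg hxy fun u _ =>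
      Pool.Agent.H448R2.GC.cu_nonneg k c u hc
  · have h2 : ∫ u in x..y, cu k c u ≤ ∫ _ in x..y, (1:ℝ) :=
      intervalIntegral.integral_mono_on hxy (Pool.Agent.H448R2.GC.K1.cu_int c hc k _ _)
        (by simp) fun u _ => Pool.Agent.H448R2.GC.cu_le_one k c u hc
    simpa using h2

/-- the cutoffs are Lipschitz -/
lemma cu_lip {k : ℕ} {c : ℝ} (hc : 0 < c) (x y : ℝ) :
    |cu (k + 1) c x - cu (k + 1) c y| ≤ |x - y| / c := by
  have key : ∀ x y : ℝ, x ≤ y → |cu (k + 1) c x - cu (k + 1) c y| ≤ |x - y| / c := by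
    intro x y hxy
    obtain ⟨h1, h2⟩ := prim_bd (k := k) hc hxy
    obtain ⟨h3, h4⟩ := prim_bd (k := k) hc (sub_le_sub_right hxy c)
    rw [Pool.Agent.H448R2.GC.K1.cu_succ_eq c hc k x, Pool.Agent.H448R2.GC.K1.cu_succ_eq c hc k y,
      ← mul_sub, abs_mul, abs_of_pos (by positivity : 0 < 1 / c), one_div, mul_comm,
      ← div_eq_mul_inv]
    refine div_le_div_of_nonneg_right ?_ hc.le
    rw [abs_of_nonpos (by linarith : x - y ≤ 0), abs_le]
    constructor <;> linarith
  rcases le_total x y with h | h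
  · exact key x y h
  · have := key y x h
    rwa [abs_sub_comm (cu (k + 1) c y), abs_sub_comm y x] at this

lemma mh_gg (t : ℝ) {g : ℕ} (hg : g ≠ 0) : mh t (g, g) = (((g : ℝ)⁻¹ : ℝ) : ℂ) := by
  have h0 : (g : ℂ) ≠ 0 := by exact_mod_cast hg
  show (g : ℂ) ^ (-(1 / 2 + t * Complex.I)) * (g : ℂ) ^ (-(1 / 2 - t * Complex.I)) = _
  rw [← Complex.cpow_add _ _ h0,
    show -(1 / 2 + (t:ℂ) * Complex.I) + -(1 / 2 - (t:ℂ) * Complex.I) = -1 by ring,
    Complex.cpow_neg_one]
  push_cast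
  rfl

lemma mh_mul_gg (t : ℝ) {g : ℕ} (hg : g ≠ 0) (h l : ℕ) :
    mh t (g * h, g * l) = (((g : ℝ)⁻¹ : ℝ) : ℂ) * mh t (h, l) := by
  rw [← mh_gg t hg, ← map_mul]
  rfl

lemma w2_mul_gg {g h l : ℕ} (hg : g ≠ 0) (hh : h ≠ 0) (hl : l ≠ 0) :
    w2 (g * h, g * l) = (g : ℝ)⁻¹ * w2 (h, l) := by
  have hg0 : (0:ℝ) < g := by exact_mod_cast Nat.pos_of_ne_zero hg
  have hh0 : (0:ℝ) < h := by exact_mod_cast Nat.pos_of_ne_zero hh
  have hl0 : (0:ℝ) < l := by exact_mod_cast Nat.pos_of_ne_zero hl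
  unfold w2
  simp only
  have e1 : w1 (g * h, g * l) = (g : ℝ)⁻¹ * w1 (h, l) := by
    unfold w1
    simp only
    rw [Nat.gcd_mul_left]
    push_cast
    field_simp
  have e2 : ∀ (p : ℕ), (((g * h).factorization p : ℤ) - (g * l).factorization p) =
      ((h.factorization p : ℤ) - l.factorization p) := by
    intro p
    rw [Nat.factorization_mul hg hh, Nat.factorization_mul hg hl]
    simp only [Finsupp.add_apply]
    push_cast
    ring
  have e3 : ∏ p ∈ (g * h * (g * l)).primeFactors,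
      (1 + ((((g * h).factorization p : ℤ) - (g * l).factorization p).natAbs : ℝ) *
        (((p:ℝ) - 1) / ((p:ℝ) + 1))) =
      ∏ p ∈ (h * l).primeFactors,
      (1 + (((h.factorization p : ℤ) - l.factorization p).natAbs : ℝ) *
        (((p:ℝ) - 1) / ((p:ℝ) + 1))) := by
    symm
    have hsub : (h * l).primeFactors ⊆ (g * h * (g * l)).primeFactors := by
      refine Nat.primeFactors_mono ?_ ?_
      · exact mul_dvd_mul (dvd_mul_left _ _) (dvd_mul_left _ _)
      · positivity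
    rw [← prod_subset hsub]
    · refine prod_congr rfl fun p _ => ?_
      rw [e2]
    · intro p hp hp2
      rw [Nat.mem_primeFactors] at hp hp2
      have h3 : ¬ p ∣ h * l := fun hd => hp2 ⟨hp.1, hd, by positivity⟩
      have h4 : h.factorization p = 0 :=
        Nat.factorization_eq_zero_of_not_dvd fun hd => h3 (hd.mul_right _)
      have h5 : l.factorization p = 0 :=
        Nat.factorization_eq_zero_of_not_dvd fun hd => h3 (hd.mul_left _)
      rw [e2, h4, h5]
      simp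
  rw [e1, e3]
  ring

lemma w2_symm (h l : ℕ) : w2 (h, l) = w2 (l, h) := by
  unfold w2 w1
  simp only
  rw [Nat.gcd_comm h l, mul_comm (h:ℝ) l, mul_comm h l]
  congr 1
  refine prod_congr rfl fun p _ => ?_
  congr 2
  rw [show ((h.factorization p : ℤ) - l.factorization p) =
    -((l.factorization p : ℤ) - h.factorization p) by ring, Int.natAbs_neg]

lemma w2_nonneg (x : ℕ × ℕ) : 0 ≤ w2 x := by
  unfold w2
  refine mul_nonneg (by unfold w1; positivity) (prod_nonneg fun p hp => ?_)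
  have h1 : (1:ℝ) ≤ p := by exact_mod_cast (Nat.prime_of_mem_primeFactors hp).one_le
  have h2 : 0 ≤ ((p:ℝ) - 1) / ((p:ℝ) + 1) := div_nonneg (by linarith) (by linarith)
  positivity

end

end Pool.Agent.Y604.SX
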