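import Pool.Agent.Y604.SX.AS1
import Pool.Agent.Y969.SM.StmT
import Pool.Agent.TH757.N4_ING

set_option autoImplicit false

/-! Project SX, job AS, second part: weighted integrals, first and second moments with a twist. -/

namespace Pool.Agent.Y604.SX

open Finset Filter Topology MeasureTheory Complex
open Pool.Agent.Y969.SM
open Pool.Agent.H306R2.SM (om cl Yf)
open Pool.Agent.H262R4.TM (Rng Ck)
open Pool.Agent.H448R2.GC (cs cu)
open Pool.Agent.W184.NZ (mh w1 wl Mn wz mh_cont mh_norm_le mh_eq)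
open Pool.Agent.TH806 (DP BF om_poly_int DP_cont DP_norm)
open Pool.Agent.TH757.N4_ING (fc fc_nonneg fc_le_one fc_one fc_zero cs_DP DP_sub)

noncomputable section

/-! ### weighted integrals -/

/-- the mean with the Gamma density -/
def Ei (κ : ℕ) (T : ℝ) (φ : ℝ → ℂ) : ℂ :=
  ∫ t in Set.Ioi (0:ℝ), ((om κ (κ / T) t : ℝ) : ℂ) * φ t

/-- integrability -/
def In (κ : ℕ) (T : ℝ) (φ : ℝ → ℂ) : Prop :=
  IntegrableOn (fun t => ((om κ (κ / T) t : ℝ) : ℂ) * φ t) (Set.Ioi 0)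

lemma In_of_bound {κ : ℕ} {T : ℝ} (hδ : 0 < (κ:ℝ) / T) {φ : ℝ → ℂ} (hφ : Continuous φ) {C : ℝ}
    (A : ℕ) (h : ∀ t, 0 ≤ t → ‖φ t‖ ≤ C * (1 + t) ^ A) : In κ T φ := by
  have h1 := om_poly_int (k := κ) hδ (F := fun t => ‖φ t‖) hφ.norm A
    (fun t ht => by rw [abs_norm]; exact h t ht)
  refine Integrable.mono' h1 ?_ ?_
  · exact ((continuous_ofReal.comp (Pool.Agent.H262R4.TM.TTW.om_cont κ _)).mul
      hφ).aestronglyMeasurable
  · refine (ae_restrict_iff' measurableSet_Ioi).mpr (Eventually.of_forall fun t ht => ?_)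
    rw [norm_mul, Complex.norm_real, Real.norm_eq_abs,
      abs_of_nonneg (Pool.Agent.TH806.om_nn κ hδ (le_of_lt ht))]

lemma In_add {κ : ℕ} {T : ℝ} {φ ψ : ℝ → ℂ} (h1 : In κ T φ) (h2 : In κ T ψ) :
    In κ T (fun t => φ t + ψ t) := by
  refine (Integrable.add h1 h2).congr (Eventually.of_forall fun t => ?_)
  simp only [Pi.add_apply]
  ring

lemma In_sub {κ : ℕ} {T : ℝ} {φ ψ : ℝ → ℂ} (h1 : In κ T φ) (h2 : In κ T ψ) :
    In κ T (fun t => φ t - ψ t) := by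
  refine (Integrable.sub h1 h2).congr (Eventually.of_forall fun t => ?_)
  simp only [Pi.sub_apply]
  ring

lemma In_cmul {κ : ℕ} {T : ℝ} {φ : ℝ → ℂ} (c : ℂ) (h1 : In κ T φ) :
    In κ T (fun t => c * φ t) := by
  refine (Integrable.const_mul h1 c).congr (Eventually.of_forall fun t => ?_)
  simp only
  ring

lemma In_mh {κ : ℕ} {T : ℝ} {φ : ℝ → ℂ} (h : In κ T φ) {x : ℕ × ℕ} (h1 : x.1 ≠ 0)
    (h2 : x.2 ≠ 0) : In κ T (fun t => φ t * mh t x) := by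
  have h3 : IntegrableOn (fun t => (((om κ (κ / T) t : ℝ) : ℂ) * φ t) * mh t x) (Set.Ioi 0) :=
    Integrable.mul_bdd (c := 1) h (mh_cont h1 h2).aestronglyMeasurable
      (Eventually.of_forall fun t => mh_norm_le h1 h2)
  refine h3.congr (Eventually.of_forall fun t => ?_)
  simp only
  ring

lemma Ei_add {κ : ℕ} {T : ℝ} {φ ψ : ℝ → ℂ} (h1 : In κ T φ) (h2 : In κ T ψ) :
    Ei κ T (fun t => φ t + ψ t) = Ei κ T φ + Ei κ T ψ := by
  unfold Ei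
  rw [← integral_add h1 h2]
  refine integral_congr_ae (Eventually.of_forall fun t => ?_)
  simp only
  ring

lemma Ei_sub {κ : ℕ} {T : ℝ} {φ ψ : ℝ → ℂ} (h1 : In κ T φ) (h2 : In κ T ψ) :
    Ei κ T (fun t => φ t - ψ t) = Ei κ T φ - Ei κ T ψ := by
  unfold Ei
  rw [← integral_sub h1 h2]
  refine integral_congr_ae (Eventually.of_forall fun t => ?_)
  simp only
  ring

lemma Ei_cmul {κ : ℕ} {T : ℝ} (c : ℂ) (φ : ℝ → ℂ) :
    Ei κ T (fun t => c * φ t) = c * Ei κ T φ := by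
  unfold Ei
  rw [← integral_const_mul]
  refine integral_congr_ae (Eventually.of_forall fun t => ?_)
  simp only
  ring

lemma Ei_conj {κ : ℕ} {T : ℝ} (φ : ℝ → ℂ) :
    Ei κ T (fun t => (starRingEnd ℂ) (φ t)) = (starRingEnd ℂ) (Ei κ T φ) := by
  unfold Ei
  rw [← integral_conj]
  refine integral_congr_ae (Eventually.of_forall fun t => ?_)
  simp only
  rw [map_mul, Complex.conj_ofReal]

lemma Ei_sum {κ : ℕ} {T : ℝ} {ι : Type} (s : Finset ι) (F : ι → ℝ → ℂ)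
    (h : ∀ i ∈ s, In κ T (F i)) :
    Ei κ T (fun t => ∑ i ∈ s, F i t) = ∑ i ∈ s, Ei κ T (F i) := by
  unfold Ei
  rw [← integral_finsetSum s h]
  refine integral_congr_ae (Eventually.of_forall fun t => ?_)
  simp only
  rw [mul_sum]

lemma mh_conj (t : ℝ) {h l : ℕ} (hh : h ≠ 0) (hl : l ≠ 0) :
    (starRingEnd ℂ) (mh t (h, l)) = mh t (l, h) := by
  rw [mh_eq t h hl, mh_eq t l hh, map_mul, Complex.conj_conj, mul_comm]

/-! ### the first moment -/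

lemma mh_one_right (t : ℝ) (m : ℕ) : mh t (m, 1) = (m : ℂ) ^ (-(cl t)) := by
  rw [mh_eq t m one_ne_zero]
  simp

lemma mh_split (t : ℝ) (m n h l : ℕ) :
    mh t (m * n * h, l) = (m : ℂ) ^ (-(cl t)) * (n : ℂ) ^ (-(cl t)) * mh t (h, l) := by
  rw [← mh_one_right, ← mh_one_right, ← map_mul, ← map_mul]
  congr 1
  simp

/-- the divisor sum -/
def SA (h l M : ℕ) (f : ℕ → ℝ) : ℝ :=
  ∑ m ∈ Icc 1 M, ∑ n ∈ Icc 1 M, f m * f n * (if l ∣ m * n * h then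
      ((m * n * h / l).divisors.card : ℝ) / ((m : ℝ) * n * h) else 0)

lemma SA_one (M : ℕ) (f : ℕ → ℝ) : SA 1 1 M f =
    ∑ m ∈ Icc 1 M, ∑ n ∈ Icc 1 M, f m * f n * (((m * n).divisors.card : ℝ) / ((m : ℝ) * n)) := by
  unfold SA
  refine sum_congr rfl fun m _ => sum_congr rfl fun n _ => ?_
  simp

lemma first {κ : ℕ} {T : ℝ} (hδ : 0 < (κ:ℝ) / T) (hT : 1 ≤ T)
    (hFM : ∀ h l : ℕ, 1 ≤ h → 1 ≤ l → (h : ℝ) ≤ T ^ (199 / 200 : ℝ) → (l : ℝ) ≤ T →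
      ‖(∫ t in Set.Ioi (0 : ℝ), ((om κ (κ / T) t : ℝ) : ℂ) *
        ((starRingEnd ℂ) (riemannZeta (cl t)) ^ 2 * mh t (h, l))) -
      (if l ∣ h then (((h / l).divisors.card : ℝ) / (h : ℝ) : ℂ) else 0)‖ ≤ T ^ (-1 : ℝ))
    {f : ℕ → ℝ} (hf : ∀ n, |f n| ≤ 1) {M h l : ℕ} (hM : (M : ℝ) ≤ T ^ (99 / 200 : ℝ))
    (hh : 1 ≤ h) (hl : 1 ≤ l) (hhT : (h : ℝ) ≤ T ^ (1 / 200 : ℝ)) (hlT : (l : ℝ) ≤ T) :
    ‖Ei κ T (fun t => (starRingEnd ℂ) (riemannZeta (cl t)) ^ 2 *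
        DP (fun n => ((f n : ℝ) : ℂ)) M t ^ 2 * mh t (h, l)) - ((SA h l M f : ℝ) : ℂ)‖ ≤ 1 := by
  have hT0 : 0 < T := by linarith
  have hzc := Pool.Agent.H262R4.TM.TTW.zeta_cont
  have hzc2 : Continuous fun t => (starRingEnd ℂ) (riemannZeta (cl t)) :=
    Complex.continuous_conj.comp hzc
  -- integrability of the terms
  have hI : ∀ m n : ℕ, 1 ≤ m → 1 ≤ n → In κ T (fun t => (((f m * f n : ℝ)) : ℂ) *
      ((starRingEnd ℂ) (riemannZeta (cl t)) ^ 2 * mh t (m * n * h, l))) := by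
    intro m n hm hn
    refine In_cmul _ (In_mh ?_ ?_ ?_)
    · refine In_of_bound hδ (hzc2.pow 2) (C := 24 ^ 2) 4 fun t ht => ?_
      rw [norm_pow, RCLike.norm_conj]
      calc _ ≤ (24 * (1 + t) ^ 2) ^ 2 :=
            pow_le_pow_left₀ (norm_nonneg _) (Pool.Agent.H262R4.TM.TTW.zeta_cl_bound t ht) 2
        _ = _ := by ring
    · show m * n * h ≠ 0
      positivity
    · show l ≠ 0
      omega
  have e1 : Ei κ T (fun t => (starRingEnd ℂ) (riemannZeta (cl t)) ^ 2 *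
        DP (fun n => ((f n : ℝ) : ℂ)) M t ^ 2 * mh t (h, l)) =
      ∑ m ∈ Icc 1 M, ∑ n ∈ Icc 1 M, (((f m * f n : ℝ)) : ℂ) *
        Ei κ T (fun t => (starRingEnd ℂ) (riemannZeta (cl t)) ^ 2 * mh t (m * n * h, l)) := by
    have e2 : (fun t => (starRingEnd ℂ) (riemannZeta (cl t)) ^ 2 *
        DP (fun n => ((f n : ℝ) : ℂ)) M t ^ 2 * mh t (h, l)) =
        fun t => ∑ x ∈ Icc 1 M ×ˢ Icc 1 M, (((f x.1 * f x.2 : ℝ)) : ℂ) *
          ((starRingEnd ℂ) (riemannZeta (cl t)) ^ 2 * mh t (x.1 * x.2 * h, l)) := by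
      funext t
      rw [sum_product]
      unfold DP
      rw [sq (∑ m ∈ Icc 1 M, _), sum_mul_sum, mul_sum, sum_mul]
      refine sum_congr rfl fun m _ => ?_
      rw [mul_sum, sum_mul]
      refine sum_congr rfl fun n _ => ?_
      rw [mh_split]
      push_cast
      ring
    rw [e2, Ei_sum (Icc 1 M ×ˢ Icc 1 M) (fun x t => (((f x.1 * f x.2 : ℝ)) : ℂ) *
          ((starRingEnd ℂ) (riemannZeta (cl t)) ^ 2 * mh t (x.1 * x.2 * h, l)))
        (fun x hx => by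
          rw [mem_product, mem_Icc, mem_Icc] at hx
          exact hI x.1 x.2 hx.1.1 hx.2.1), sum_product]
    refine sum_congr rfl fun m _ => sum_congr rfl fun n _ => ?_
    exact Ei_cmul _ _
  have e3 : ((SA h l M f : ℝ) : ℂ) = ∑ m ∈ Icc 1 M, ∑ n ∈ Icc 1 M, (((f m * f n : ℝ)) : ℂ) *
      (if l ∣ m * n * h then (((m * n * h / l).divisors.card : ℝ) / ((m * n * h : ℕ) : ℝ) : ℂ)
        else 0) := by
    unfold SA
    rw [ofReal_sum]
    refine sum_congr rfl fun m _ => ?_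
    rw [ofReal_sum]
    refine sum_congr rfl fun n _ => ?_
    rw [ofReal_mul]
    congr 1
    split_ifs
    · push_cast
      rfl
    · rfl
  have hMM : (M:ℝ) * M ≤ T ^ (99 / 100 : ℝ) := by
    calc (M:ℝ) * M ≤ T ^ (99 / 200 : ℝ) * T ^ (99 / 200 : ℝ) :=
          mul_le_mul hM hM (Nat.cast_nonneg _) (by positivity)
      _ = T ^ (99 / 100 : ℝ) := by
          rw [← Real.rpow_add hT0]
          norm_num
  rw [e1, e3, ← sum_sub_distrib]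
  have hterm : ∀ m ∈ Icc 1 M, ∀ n ∈ Icc 1 M, ‖(((f m * f n : ℝ)) : ℂ) *
        Ei κ T (fun t => (starRingEnd ℂ) (riemannZeta (cl t)) ^ 2 * mh t (m * n * h, l)) -
      (((f m * f n : ℝ)) : ℂ) *
      (if l ∣ m * n * h then (((m * n * h / l).divisors.card : ℝ) / ((m * n * h : ℕ) : ℝ) : ℂ)
        else 0)‖ ≤ T ^ (-1 : ℝ) := by
    intro m hm n hn
    rw [mem_Icc] at hm hn
    rw [← mul_sub, norm_mul, Complex.norm_real, Real.norm_eq_abs, abs_mul]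
    have h1 : ((m * n * h : ℕ) : ℝ) ≤ T ^ (199 / 200 : ℝ) := by
      push_cast
      have hm1 : (m:ℝ) ≤ M := by exact_mod_cast hm.2
      have hn1 : (n:ℝ) ≤ M := by exact_mod_cast hn.2
      calc (m:ℝ) * n * h ≤ ((M:ℝ) * M) * h := by gcongr
        _ ≤ T ^ (99 / 100 : ℝ) * T ^ (1 / 200 : ℝ) :=
            mul_le_mul hMM hhT (Nat.cast_nonneg _) (by positivity)
        _ = T ^ (199 / 200 : ℝ) := by
            rw [← Real.rpow_add hT0]
            norm_num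
    have h2 := hFM (m * n * h) l (Nat.mul_pos (Nat.mul_pos hm.1 hn.1) hh) hl h1 hlT
    have h3 : |f m| * |f n| ≤ 1 := by
      have := mul_le_mul (hf m) (hf n) (abs_nonneg _) zero_le_one
      simpa using this
    calc _ ≤ 1 * T ^ (-1 : ℝ) := mul_le_mul h3 h2 (norm_nonneg _) zero_le_one
      _ = _ := one_mul _
  calc _ ≤ ∑ m ∈ Icc 1 M, ∑ n ∈ Icc 1 M, T ^ (-1 : ℝ) := by
        refine (norm_sum_le _ _).trans (sum_le_sum fun m hm => ?_)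
        rw [← sum_sub_distrib]
        exact (norm_sum_le _ _).trans (sum_le_sum fun n hn => hterm m hm n hn)
    _ = ((M:ℝ) * M) * T ^ (-1 : ℝ) := by
        simp
        ring
    _ ≤ T ^ (99 / 100 : ℝ) * T ^ (-1 : ℝ) := mul_le_mul_of_nonneg_right hMM (by positivity)
    _ ≤ 1 := by
        rw [← Real.rpow_add hT0]
        exact Real.rpow_le_one_of_one_le_of_nonpos hT (by norm_num)

/-! ### the second moment -/

/-- the gcd sum -/
def SG (h l M : ℕ) (L : ℝ) (f : ℕ → ℝ) : ℝ :=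
  ∑ m ∈ Icc 1 M, ∑ n ∈ Icc 1 M, f m * f n * (Pool.Agent.Y969.SM.gk (m * h) (n * l) *
    (L + Pool.Agent.Y969.SM.gl (m * h) (n * l)))

lemma SG_one (M : ℕ) (L : ℝ) (f : ℕ → ℝ) : SG 1 1 M L f =
    ∑ m ∈ Icc 1 M, ∑ n ∈ Icc 1 M, f m * f n * (Pool.Agent.Y969.SM.gk m n *
      (L + Pool.Agent.Y969.SM.gl m n)) := by
  unfold SG
  refine sum_congr rfl fun m _ => sum_congr rfl fun n _ => ?_
  rw [mul_one, mul_one]

lemma Mn_gk (κ : ℕ) (T : ℝ) (a b : ℕ) : Mn κ T (a, b) =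
    Pool.Agent.Y969.SM.gk a b * ((Real.log (Yf κ T) + Ck κ) + Pool.Agent.Y969.SM.gl a b) := by
  have e : Real.log ((a:ℝ) * b / (Nat.gcd a b : ℝ) ^ 2) =
      -Real.log ((Nat.gcd a b : ℝ) ^ 2 / ((a:ℝ) * b)) := by
    rw [← Real.log_inv, inv_div]
  unfold Mn wl Pool.Agent.Y969.SM.gk Pool.Agent.Y969.SM.gl w1
  simp only
  rw [e]
  ring

lemma BF_eq (κ : ℕ) (T : ℝ) (f : ℕ → ℝ) (M h l : ℕ) :
    BF κ T (fun n => ((f n : ℝ) : ℂ)) M (h, l) =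
      ((SG h l M (Real.log (Yf κ T) + Ck κ) f : ℝ) : ℂ) := by
  unfold BF SG
  rw [ofReal_sum]
  refine sum_congr rfl fun m _ => ?_
  rw [ofReal_sum]
  refine sum_congr rfl fun n _ => ?_
  rw [Complex.conj_ofReal, Mn_gk]
  push_cast
  ring

lemma Ei_wz (κ : ℕ) (T : ℝ) (g : ℝ → ℝ) (x : ℕ × ℕ) :
    Ei κ T (fun t => ((‖riemannZeta (cl t)‖ ^ 2 * g t : ℝ) : ℂ) * mh t x) =
      ∫ t in Set.Ioi (0:ℝ), ((wz κ T t * g t : ℝ) : ℂ) * mh t x := by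
  unfold Ei wz
  refine integral_congr_ae (Eventually.of_forall fun t => ?_)
  simp only
  push_cast
  ring

lemma mh_one (t : ℝ) : mh t (1, 1) = 1 := by
  show mh t 1 = 1
  exact map_one _

/-- the second moment with a twist -/
lemma second {κ : ℕ} {T η θ CA K : ℝ} {h l : ℕ} (hT : 1 ≤ T) (hη : 0 < η)
    (hTW : ∀ (M B : ℕ) (f : ℕ → ℂ), (∀ n, n ≠ 0 → ‖f n‖ ≤ 1) → ((M * B : ℕ) : ℝ) ≤ T ^ θ →
      ∀ x : ℕ × ℕ, x.1 ≠ 0 → x.2 ≠ 0 → x.1 ≤ B → x.2 ≤ B →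
      ‖(∫ t in Set.Ioi (0:ℝ), ((wz κ T t * ‖DP f M t‖ ^ 2 : ℝ) : ℂ) * mh t x) - BF κ T f M x‖ ≤
        4 * T ^ (-η))
    (hA : ∀ (M : ℕ) (L : ℝ) (f g : ℕ → ℝ), 1 ≤ M → 1 ≤ L → Real.log M ≤ L → Wt K L M f →
      Wt K L M g → |∑ m ∈ Icc 1 M, ∑ n ∈ Icc 1 M, f m * g n *
        (Pool.Agent.Y969.SM.gk (m * h) (n * l) * (L + Pool.Agent.Y969.SM.gl (m * h) (n * l))) -
      w2 (h, l) * ∑ m ∈ Icc 1 M, ∑ n ∈ Icc 1 M, f m * g n *
        (Pool.Agent.Y969.SM.gk m n * (L + Pool.Agent.Y969.SM.gl m n))| ≤ CA * L ^ 3)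
    {L : ℝ} (hL : L = Real.log (Yf κ T) + Ck κ) (hL1 : 1 ≤ L) {M : ℕ} (hM : 1 ≤ M)
    (hML : Real.log M ≤ L) {f : ℕ → ℝ} (hf : Wt K L M f) (hh : h ≠ 0) (hl : l ≠ 0)
    (hMB : ((M * (max h l) : ℕ) : ℝ) ≤ T ^ θ) (hB : 1 ≤ max h l) :
    ‖Ei κ T (fun t => ((‖riemannZeta (cl t)‖ ^ 2 * ‖DP (fun n => ((f n : ℝ) : ℂ)) M t‖ ^ 2 : ℝ) : ℂ) *
        mh t (h, l)) - (w2 (h, l) : ℂ) *
      Ei κ T (fun t => ((‖riemannZeta (cl t)‖ ^ 2 * ‖DP (fun n => ((f n : ℝ) : ℂ)) M t‖ ^ 2 : ℝ) : ℂ) *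
        mh t (1, 1))‖ ≤ CA * L ^ 3 + 4 + 4 * w2 (h, l) := by
  have hfn : ∀ n, n ≠ 0 → ‖((f n : ℝ) : ℂ)‖ ≤ 1 := fun n _ => by
    rw [Complex.norm_real, Real.norm_eq_abs]
    exact hf.1 n
  have h1 := hTW M (max h l) (fun n => ((f n : ℝ) : ℂ)) hfn hMB (h, l) hh hl (le_max_left _ _)
    (le_max_right _ _)
  have h2 := hTW M (max h l) (fun n => ((f n : ℝ) : ℂ)) hfn hMB (1, 1) one_ne_zero one_ne_zero
    hB hB
  have h3 := hA M L f f hM hL1 hML hf hf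
  rw [← SG_one] at h3
  change |SG h l M L f - w2 (h, l) * SG 1 1 M L f| ≤ CA * L ^ 3 at h3
  rw [Ei_wz, Ei_wz]
  rw [BF_eq, ← hL] at h1 h2
  have hTη : T ^ (-η) ≤ 1 := Real.rpow_le_one_of_one_le_of_nonpos hT (by linarith)
  have hw := w2_nonneg (h, l)
  set P := ∫ t in Set.Ioi (0:ℝ),
    ((wz κ T t * ‖DP (fun n => ((f n : ℝ) : ℂ)) M t‖ ^ 2 : ℝ) : ℂ) * mh t (h, l)
  set P1 := ∫ t in Set.Ioi (0:ℝ),
    ((wz κ T t * ‖DP (fun n => ((f n : ℝ) : ℂ)) M t‖ ^ 2 : ℝ) : ℂ) * mh t (1, 1)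
  have e1 : P - (w2 (h, l) : ℂ) * P1 = (P - ((SG h l M L f : ℝ) : ℂ)) +
      (((SG h l M L f - w2 (h, l) * SG 1 1 M L f : ℝ)) : ℂ) -
      (w2 (h, l) : ℂ) * (P1 - ((SG 1 1 M L f : ℝ) : ℂ)) := by
    push_cast
    ring
  rw [e1]
  refine (norm_sub_le _ _).trans ?_
  have h4 : ‖(w2 (h, l) : ℂ) * (P1 - ((SG 1 1 M L f : ℝ) : ℂ))‖ ≤ w2 (h, l) * 4 := by
    rw [norm_mul, Complex.norm_real, Real.norm_eq_abs, abs_of_nonneg hw]
    exact mul_le_mul_of_nonneg_left (by linarith) hw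
  have h5 : ‖(((SG h l M L f - w2 (h, l) * SG 1 1 M L f : ℝ)) : ℂ)‖ ≤ CA * L ^ 3 := by
    rw [Complex.norm_real, Real.norm_eq_abs]
    exact h3
  have h6 := norm_add_le (P - ((SG h l M L f : ℝ) : ℂ))
    (((SG h l M L f - w2 (h, l) * SG 1 1 M L f : ℝ)) : ℂ)
  linarith

/-! ### the weights -/

lemma fc_lip {k : ℕ} {c D : ℝ} (hc : 0 < c) {a m : ℕ} (ha : 1 ≤ a) (hm : 1 ≤ m) :
    |fc (k + 1) c D (a * m) - fc (k + 1) c D m| ≤ Real.log a / c := by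
  unfold fc
  have ha0 : (a:ℝ) ≠ 0 := by
    have : a ≠ 0 := by omega
    exact_mod_cast this
  have hm0 : (m:ℝ) ≠ 0 := by
    have : m ≠ 0 := by omega
    exact_mod_cast this
  refine (cu_lip hc _ _).trans (le_of_eq ?_)
  congr 1
  rw [Nat.cast_mul, Real.log_mul ha0 hm0]
  rw [show Real.log a + Real.log m - D - (Real.log m - D) = Real.log a by ring]
  exact abs_of_nonneg (Real.log_nonneg (by exact_mod_cast ha))

/-- the cutoffs are weights -/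
lemma Wt_fc {k : ℕ} {c D K L : ℝ} (hc : 0 < c) (hcK : 1 / c ≤ K / L) {M : ℕ}
    (hM : ⌊Real.exp (D + ((k + 1 : ℕ) : ℝ) * c)⌋₊ ≤ M) : Wt K L M (fc (k + 1) c D) := by
  refine ⟨fun n => ?_, fun m hm => fc_zero hc (lt_of_le_of_lt hM hm), fun a m ha hm => ?_⟩
  · rw [abs_of_nonneg (fc_nonneg hc n)]
    exact fc_le_one hc n
  · refine (fc_lip hc ha hm).trans ?_
    have h0 : 0 ≤ Real.log a := Real.log_nonneg (by exact_mod_cast ha)
    have h1 := mul_le_mul_of_nonneg_right hcK h0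
    calc Real.log a / c = 1 / c * Real.log a := by ring
      _ ≤ K / L * Real.log a := h1
      _ = K * Real.log a / L := by ring

lemma Wt_sub {K L : ℝ} {M : ℕ} {f g : ℕ → ℝ} (hf : Wt K L M f) (hg : Wt K L M g)
    (hf0 : ∀ n, 0 ≤ f n) (hg0 : ∀ n, 0 ≤ g n) : Wt (2 * K) L M (fun n => f n - g n) := by
  refine ⟨fun n => ?_, fun m hm => ?_, fun a m ha hm => ?_⟩
  · have h1 := hf.1 n
    have h2 := hg.1 n
    have h3 := hf0 n
    have h4 := hg0 n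
    rw [abs_le] at *
    constructor <;> linarith
  · simp only
    rw [hf.2.1 m hm, hg.2.1 m hm, sub_self]
  · have h1 := hf.2.2 a m ha hm
    have h2 := hg.2.2 a m ha hm
    have e1 : 2 * K * Real.log a / L = K * Real.log a / L + K * Real.log a / L := by ring
    simp only
    rw [e1]
    rw [abs_le] at *
    constructor <;> linarith

lemma Wt_mono {K K' L : ℝ} (hL : 0 < L) (hK : K ≤ K') {M : ℕ} {f : ℕ → ℝ} (hf : Wt K L M f) :
    Wt K' L M f := by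
  refine ⟨hf.1, hf.2.1, fun a m ha hm => (hf.2.2 a m ha hm).trans ?_⟩
  have h0 : 0 ≤ Real.log a := Real.log_nonneg (by exact_mod_cast ha)
  gcongr

/-- the size of the logarithm in the main term -/
lemma LL_bd {κ : ℕ} {T : ℝ} (hκ : 1 ≤ κ) (hT : 0 < T) :
    Real.log T - 2 ≤ Real.log (Yf κ T) + Ck κ ∧ Real.log (Yf κ T) + Ck κ ≤ Real.log T + 2 := by
  have hκ0 : (0:ℝ) < κ := by exact_mod_cast hκ
  unfold Yf Ck
  rw [Real.log_div hT.ne' (by positivity), Real.log_mul (by positivity) hκ0.ne']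
  have h1 : Real.log κ ≤ (harmonic κ : ℝ) := by
    refine le_trans ?_ (log_add_one_le_harmonic κ)
    refine Real.log_le_log hκ0 ?_
    push_cast
    linarith
  have h2 := harmonic_le_one_add_log κ
  have h3 := Real.one_half_lt_eulerMascheroniConstant
  have h4 := Real.eulerMascheroniConstant_lt_two_thirds
  obtain ⟨h5, h6⟩ := Pool.Agent.TH757.N4_ING.log2pi
  constructor <;> linarith

end

end Pool.Agent.Y604.SX
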